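import Mathlib

/-!
# The equation `(E_N)` has finitely many irreducible solutions

Let `N ≥ 2`.  A solution of size `n` of `(E_N)` is a tuple `(a_1, …, a_n)` of elements of `ℤ/Nℤ` with
`M_n(a_1, …, a_n) = ± Id`.  We show that every irreducible solution has size at most
`|SL₂(ℤ/Nℤ)| + 2`; in particular there are only finitely many of them.
-/

set_option autoImplicit false

namespace Pool.Agent.Results.MP_762e7e_co.FinitelyManyIrreducible

/-- The matrix `[[a, -1], [1, 0]]` over `ℤ/Nℤ`. -/
def E (N : ℕ) (a : ZMod N) : Matrix (Fin 2) (Fin 2) (ZMod N) := !![a, -1; 1, 0]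

/-- `M N [a_1, …, a_n]` is the product `E a_n * E a_{n-1} * ⋯ * E a_1`. -/
def M (N : ℕ) (l : List (ZMod N)) : Matrix (Fin 2) (Fin 2) (ZMod N) :=
  (l.reverse.map (E N)).prod

/-- The tuple `l` is a solution of `(E_N)`. -/
def IsSolution (N : ℕ) (l : List (ZMod N)) : Prop := M N l = 1 ∨ M N l = -1

/-- `c` is the sum `a ⊕ b` of two tuples `a = (a_1, …, a_n)` and `b = (b_1, …, b_m)` (`n, m ≥ 2`), that
is, `c = (a_1 + b_m, a_2, …, a_{n-1}, a_n + b_1, b_2, …, b_{m-1})`. -/
def IsSum (N : ℕ) (a b c : List (ZMod N)) : Prop :=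
  ∃ (a₁ aₙ b₁ bₘ : ZMod N) (a' b' : List (ZMod N)),
    a = a₁ :: (a' ++ [aₙ]) ∧ b = b₁ :: (b' ++ [bₘ]) ∧
      c = (a₁ + bₘ) :: (a' ++ (aₙ + b₁) :: b')

/-- `a ∼ b`: the tuple `b` is a cyclic rotation of `a` or of the reversal of `a`. -/
def Equiv (N : ℕ) (a b : List (ZMod N)) : Prop := a ~r b ∨ a.reverse ~r b

/-- `c` is reducible: it is equivalent to a sum of two solutions of sizes at least `3`. -/
def Reducible (N : ℕ) (c : List (ZMod N)) : Prop :=
  ∃ a b s : List (ZMod N), IsSolution N a ∧ 3 ≤ a.length ∧ IsSolution N b ∧ 3 ≤ b.length ∧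
    IsSum N a b s ∧ Equiv N c s

/-- `c` is an irreducible solution of `(E_N)`: a solution of size at least `3` that is not
reducible. -/
def Irreducible (N : ℕ) (c : List (ZMod N)) : Prop :=
  IsSolution N c ∧ 3 ≤ c.length ∧ ¬ Reducible N c

/-! ### Proof -/

theorem M_nil (N : ℕ) : M N [] = 1 := by simp [M]

theorem M_append (N : ℕ) (l l' : List (ZMod N)) : M N (l ++ l') = M N l' * M N l := by
  simp [M]

theorem M_singleton (N : ℕ) (a : ZMod N) : M N [a] = E N a := by simp [M]

theorem E_det (N : ℕ) (a : ZMod N) : (E N a).det = 1 := by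
  simp [E, Matrix.det_fin_two]

theorem M_det (N : ℕ) (l : List (ZMod N)) : (M N l).det = 1 := by
  induction l with
  | nil => simp [M_nil]
  | cons a l ih =>
    have : a :: l = [a] ++ l := rfl
    rw [this, M_append, Matrix.det_mul, ih, M_singleton, E_det, one_mul]

/-- the element of `SL₂` with matrix `M N l` -/
def S (N : ℕ) (l : List (ZMod N)) : Matrix.SpecialLinearGroup (Fin 2) (ZMod N) :=
  ⟨M N l, M_det N l⟩

theorem S_append (N : ℕ) (l l' : List (ZMod N)) : S N (l ++ l') = S N l' * S N l := by
  apply Subtype.ext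
  rw [Matrix.SpecialLinearGroup.coe_mul]
  exact M_append N l l'

theorem E_zero_sq (N : ℕ) : E N 0 * E N 0 = -1 := by
  ext i j
  fin_cases i <;> fin_cases j <;> simp [E]

/-- rotating a solution gives a solution -/
theorem rot {N : ℕ} {u v : List (ZMod N)} (h : IsSolution N (u ++ v)) : IsSolution N (v ++ u) := by
  have hu : (M N u).det = 1 := M_det N u
  have hunit : IsUnit (M N u).det := by rw [hu]; exact isUnit_one
  rcases h with h | h
  · left
    rw [M_append] at h ⊢
    have := mul_eq_one_comm.1 h
    exact this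
  · right
    rw [M_append] at h ⊢
    have h1 : M N v * (-M N u) = 1 := by rw [mul_neg, h, neg_neg]
    have h2 := mul_eq_one_comm.1 h1
    rw [neg_mul] at h2
    rw [← h2, neg_neg]

theorem reducible_of_long {N : ℕ} [NeZero N] {c : List (ZMod N)} (hc : IsSolution N c)
    (hlen : Nat.card (Matrix.SpecialLinearGroup (Fin 2) (ZMod N)) + 3 ≤ c.length) :
    Reducible N c := by
  classical
  set K := Nat.card (Matrix.SpecialLinearGroup (Fin 2) (ZMod N)) with hK
  -- two equal prefix products
  obtain ⟨i, j, hij, hjK, hS⟩ : ∃ i j : ℕ, i < j ∧ j ≤ K ∧ S N (c.take i) = S N (c.take j) := by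
    by_contra hcon
    push Not at hcon
    have hinj : Function.Injective (fun k : Fin (K + 1) => S N (c.take k)) := by
      intro a b hab
      simp only at hab
      by_contra hne
      rcases lt_or_gt_of_ne (fun h => hne (Fin.ext h)) with h | h
      · exact hcon a b h (by omega) hab
      · exact hcon b a h (by omega) hab.symm
    have h1 := Nat.card_le_card_of_injective _ hinj
    rw [Nat.card_fin, ← hK] at h1
    omega
  -- the word between them
  set p := c.take i with hp
  set w := (c.take j).drop i with hw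
  set r := c.drop j with hr
  have hpw : c.take j = p ++ w := by
    have h1 : (c.take j).take i = p := by
      rw [List.take_take, min_eq_left hij.le]
    rw [← h1, hw, List.take_append_drop]
  have hcc : c = p ++ w ++ r := by rw [← hpw, hr, List.take_append_drop]
  have hwlen : w.length = j - i := by
    rw [hw, List.length_drop, List.length_take]
    omega
  have hSw : S N w = 1 := by
    rw [hpw, S_append] at hS
    exact (mul_eq_right.1 hS.symm)
  have hMw : M N w = 1 := by
    have := congrArg Subtype.val hSw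
    simpa [S] using this
  -- the rotated word
  have hrot : IsSolution N ((r ++ p) ++ w) := by
    have h1 : IsSolution N ((p ++ w) ++ r) := by rw [← hcc]; exact hc
    have h2 := rot h1
    have h3 : IsSolution N ((r ++ p) ++ w) := by
      rw [List.append_assoc]; exact h2
    exact h3
  have hd : IsSolution N (r ++ p) := by
    unfold IsSolution at hrot ⊢
    rw [M_append, hMw, one_mul] at hrot
    exact hrot
  have hlen2 : (r ++ p).length + w.length = c.length := by
    conv_rhs => rw [hcc]
    simp only [List.length_append]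
    omega
  have hdlen : 3 ≤ (r ++ p).length := by omega
  obtain ⟨d₁, d', dₘ, hdd⟩ : ∃ (d₁ : ZMod N) (d' : List (ZMod N)) (dₘ : ZMod N),
      r ++ p = d₁ :: (d' ++ [dₘ]) := by
    generalize hL : r ++ p = L at hdlen
    match L, hdlen with
    | x :: y :: l, _ =>
      refine ⟨x, (y :: l).dropLast, (y :: l).getLast (by simp), ?_⟩
      rw [List.dropLast_append_getLast]
  refine ⟨r ++ p, 0 :: (w ++ [0]), (r ++ p) ++ w, hd, hdlen, ?_, ?_, ?_, ?_⟩
  · right
    have h1 : (0 : ZMod N) :: (w ++ [0]) = [0] ++ (w ++ [0]) := rfl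
    rw [h1, M_append, M_append, hMw, M_singleton, mul_one, E_zero_sq]
  · simp only [List.length_cons, List.length_append, List.length_nil]
    omega
  · refine ⟨d₁, dₘ, 0, 0, d', w, hdd, rfl, ?_⟩
    rw [hdd]
    simp
  · left
    refine ⟨j, ?_⟩
    have hjl : j ≤ c.length := by omega
    rw [List.rotate_eq_drop_append_take hjl, hpw, ← hr, List.append_assoc]

/-- **Q1 of MP_762e7e_co, positive answer.**  For every `N ≥ 2` the irreducible solutions of `(E_N)`
have size at most `|SL₂(ℤ/Nℤ)| + 2`, and `(E_N)` has only finitely many irreducible solutions. -/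
theorem result (N : ℕ) (hN : 2 ≤ N) :
    (∀ c : List (ZMod N), Irreducible N c →
      c.length ≤ Nat.card (Matrix.SpecialLinearGroup (Fin 2) (ZMod N)) + 2) ∧
    {c : List (ZMod N) | Irreducible N c}.Finite := by
  have : NeZero N := ⟨by omega⟩
  have h : ∀ c : List (ZMod N), Irreducible N c →
      c.length ≤ Nat.card (Matrix.SpecialLinearGroup (Fin 2) (ZMod N)) + 2 := by
    intro c hc
    by_contra hlt
    exact hc.2.2 (reducible_of_long hc.1 (by omega))
  refine ⟨h, ?_⟩
  exact (List.finite_length_le (ZMod N) _).subset fun c hc => h c hc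

end Pool.Agent.Results.MP_762e7e_co.FinitelyManyIrreducible
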